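import Pool.Agent.H28.MZ.Targets
import Pool.Agent.H29.EX.Targets

/-!
# Theorem (III) of MP_9f0eeb_nt (all dilations `1 < r < 11/5`), section 3: definitions
-/

set_option autoImplicit false

open Complex MeasureTheory Set

namespace Pool.Agent.H88.DT

open Pool.Agent.H23.GLH (PrimChar)
open Pool.Agent.H28.MZ (ei co wl Ga dv)
open Pool.Agent.H29.EX (dl)

/-- `y` is the inverse of the factor of the functional equation of `L(s, π)`. -/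
structure IsY (π : PrimChar) (y : ℂ → ℂ) : Prop where
  diff : ∀ s : ℂ, 0 < s.im → DifferentiableAt ℂ y s
  ne : ∀ s : ℂ, 0 < s.im → y s ≠ 0
  fe : ∀ s : ℂ, 0 < s.im → π.L s * y s = (starRingEnd ℂ) (π.L (1 - (starRingEnd ℂ) s))
  refl : ∀ s : ℂ, 0 < s.im → y s * (starRingEnd ℂ) (y (1 - (starRingEnd ℂ) s)) = 1
  size : ∀ b : ℝ, ∃ C : ℝ, 0 < C ∧ ∀ σ t : ℝ, |σ - 1 / 2| ≤ b → 1 ≤ t →
    C⁻¹ * t ^ (σ - 1 / 2) ≤ ‖y (σ + t * I)‖ ∧ ‖y (σ + t * I)‖ ≤ C * t ^ (σ - 1 / 2)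
  near : ∃ C : ℝ, 0 < C ∧ ∀ σ t : ℝ, |σ - 1 / 2| ≤ 1 / 2 → 1 ≤ t →
    |‖y (σ + t * I)‖ - (π.q * t / (2 * Real.pi)) ^ (σ - 1 / 2)| ≤
      C / t * (π.q * t / (2 * Real.pi)) ^ (σ - 1 / 2)
  phase : ∃ (ω : ℂ) (B C : ℝ), ‖ω‖ = 1 ∧ 0 < C ∧ ∀ t : ℝ, 1 ≤ t →
    ‖y (1 / 2 + t * I) - ω * ei (t * Real.log t + B * t)‖ ≤ C / t

/-- the point `1/2 + η + i t` -/
noncomputable def sl (η t : ℝ) : ℂ := ((1 / 2 + η : ℝ) : ℂ) + t * I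

/-- the factor of the functional equation of the quotient `L(wl s, ψ) / L(s, χ)`, where `y₁`
belongs to `χ` and `y₂` to `ψ` -/
noncomputable def Xf (y₁ y₂ : ℂ → ℂ) (r τ : ℝ) (s : ℂ) : ℂ := y₁ s / y₂ (wl r τ s)

/-- the Dirichlet polynomial `∑_{n ≤ K} a(n) n^{-w}` -/
noncomputable def Dp (a : ℕ → ℂ) (K : ℕ) (w : ℂ) : ℂ :=
  ∑ n ∈ Finset.Icc 1 K, a n * (n : ℂ) ^ (-w)

open scoped Classical in
/-- the primes in `(T^ω₁, T^ω₂]` -/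
noncomputable def Pm (T ω₁ ω₂ : ℝ) : Finset ℕ :=
  (Finset.Icc 1 ⌊T ^ ω₂⌋₊).filter fun p => p.Prime ∧ T ^ ω₁ < p

/-- the test polynomial `∑_p ρ(p) p^{w - 1}` over the primes in `(T^ω₁, T^ω₂]` -/
noncomputable def Sp (ρ : ℕ → ℂ) (T ω₁ ω₂ : ℝ) (w : ℂ) : ℂ :=
  ∑ p ∈ Pm T ω₁ ω₂, ρ p * (p : ℂ) ^ (w - 1)

/-- the Gaussian average `E_u` -/
noncomputable def EE (T ε u : ℝ) (f : ℝ → ℂ) : ℂ := Ga (T ^ (1 - ε)) (T / 4) u f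

/-- coefficients bounded by one -/
def Bo (a : ℕ → ℂ) : Prop := ∀ n, ‖a n‖ ≤ 1

end Pool.Agent.H88.DT
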